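import Pool.Agent.Helper7_UD.Lower

open Pool.Agent.Helper7_UD

/-- The chromatic number of the unit distance graph on `ℚ(√3, √11) × ℚ(√3, √11)` is `4`. -/
theorem Pool.Agent.Results.MP_52ffe4_co.ChromaticNumber.result :
    (unitDistanceGraph K).chromaticNumber = 4 :=
  chromaticNumber_eq_four
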