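import Pool.Agent.Helper39_Chif.Search
import Pool.Agent.Helper18_FC.Final

open Pool.Agent.Helper7_UD Pool.Agent.H18FC

/-- The fractional chromatic number of the unit distance graph on `ℚ(√3, √11) × ℚ(√3, √11)` is `4`:
for every finite subgraph the minimum defining its fractional chromatic number is attained, and the
supremum over all finite subgraphs is `4`. -/
theorem Pool.Agent.Results.MP_52ffe4_co.FractionalChromaticNumber.result :
    (∀ H : (unitDistanceGraph K).Subgraph, H.verts.Finite →
      IsLeast (fracWeights H.coe) (fracChrom H.coe)) ∧
    IsLUB (finiteValues (unitDistanceGraph K)) 4 := by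
  refine ⟨fun H hH => ?_, isLUB_of_avg Pool.Agent.H39Chif.avg4⟩
  have : Finite H.verts := hH.to_subtype
  exact fracChrom_isLeast H.coe
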